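import Pool.Agent.P8H34.MB.Stm

/-!
# Project MB, package ORB: invariant convex cones with vectors in the interior of every block
-/

set_option autoImplicit false

open Pool.Agent.N110.CC Filter Topology

namespace Pool.Agent.P8H41.MB

open Pool.Agent.P8H34.MB

theorem repr_G {r b ρ : ℕ} {d : Fin b → ℕ} {ℓ : Ix d → Frm r} {s : ∀ i, Fin (d i) → Fin ρ → ℤ}
    {G : (Fin r → ℤ) → ((Fin ρ → ℝ) →ₗ[ℝ] (Fin ρ → ℝ))} {e : Module.Basis (Ix d) ℝ (Fin ρ → ℝ)}
    (h : Dat d ℓ s G e) (v : Fin r → ℤ) (x : Fin ρ → ℝ) (p : Ix d) :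
    e.repr (G v x) p = Real.exp (ev (ℓ p) v) * e.repr x p := by
  classical
  have h1 : x = ∑ k, e.repr x k • e k := (e.sum_repr x).symm
  have h2 : G v x = ∑ k, (Real.exp (ev (ℓ k) v) * e.repr x k) • e k := by
    conv_lhs => rw [h1]
    rw [map_sum]
    refine Finset.sum_congr rfl fun k _ => ?_
    rw [map_smul, h.eig, smul_smul, mul_comm]
  rw [h2]
  simp [map_sum, Finsupp.single_apply]

/-- a vector whose coordinates are in the block `i` -/
theorem eq_sum {b ρ : ℕ} {d : Fin b → ℕ} (e : Module.Basis (Ix d) ℝ (Fin ρ → ℝ)) (i : Fin b)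
    (x : Fin ρ → ℝ) (hx : ∀ p : Ix d, p.1 ≠ i → e.repr x p = 0) :
    x = ∑ j : Fin (d i), e.repr x ⟨i, j⟩ • e ⟨i, j⟩ := by
  classical
  conv_lhs => rw [← e.sum_repr x]
  rw [Fintype.sum_sigma, Finset.sum_eq_single i]
  · intro i' _ hi'
    refine Finset.sum_eq_zero fun j _ => ?_
    rw [hx ⟨i', j⟩ hi', zero_smul]
  · intro hi
    exact absurd (Finset.mem_univ i) hi

/-- a convex cone whose closure contains the unit vectors contains all vectors with positive
coordinates -/
theorem pos_mem {n : ℕ} (N : Set (Fin n → ℝ)) (h0 : (0 : Fin n → ℝ) ∈ N)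
    (hadd : ∀ x ∈ N, ∀ y ∈ N, x + y ∈ N) (hsmul : ∀ t : ℝ, 0 ≤ t → ∀ x ∈ N, t • x ∈ N)
    (hcl : ∀ j, (Pi.single j 1 : Fin n → ℝ) ∈ closure N) (c : Fin n → ℝ) (hc : ∀ j, 0 < c j) :
    c ∈ N := by
  classical
  have hconv : Convex ℝ N := by
    intro x hx y hy a b ha hb _
    exact hadd _ (hsmul a ha x hx) _ (hsmul b hb y hy)
  have hcadd : ∀ x ∈ closure N, ∀ y ∈ closure N, x + y ∈ closure N := by
    intro x hx y hy
    exact map_mem_closure₂ continuous_add hx hy fun a ha b hb => hadd a ha b hb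
  have hcsmul : ∀ t : ℝ, 0 ≤ t → ∀ x ∈ closure N, t • x ∈ closure N := by
    intro t ht x hx
    exact map_mem_closure (continuous_const_smul t) hx fun a ha => hsmul t ht a ha
  have hall : ∀ x : Fin n → ℝ, (∀ j, 0 ≤ x j) → x ∈ closure N := by
    intro x hx
    have e1 : x = ∑ j, x j • (Pi.single j 1 : Fin n → ℝ) := by
      funext k
      simp [Finset.sum_apply, Pi.single_apply]
    rw [e1]
    refine Finset.sum_induction _ (· ∈ closure N) (fun a b ha hb => hcadd a ha b hb)
      (subset_closure h0) fun j _ => hcsmul _ (hx j) _ (hcl j)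
  -- the affine span
  have hspan : affineSpan ℝ N = ⊤ := by
    have hclosed : IsClosed (affineSpan ℝ N : Set (Fin n → ℝ)) :=
      AffineSubspace.closed_of_finiteDimensional _
    have hsub : closure N ⊆ (affineSpan ℝ N : Set (Fin n → ℝ)) :=
      closure_minimal (subset_affineSpan ℝ N) hclosed
    have hz : (0 : Fin n → ℝ) ∈ affineSpan ℝ N := subset_affineSpan ℝ N h0
    rw [← AffineSubspace.direction_eq_top_iff_of_nonempty ⟨0, hz⟩, eq_top_iff]
    intro x _
    have e1 : x = ∑ j, x j • (Pi.single j 1 : Fin n → ℝ) := by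
      funext k
      simp [Finset.sum_apply, Pi.single_apply]
    rw [e1]
    refine Submodule.sum_mem _ fun j _ => Submodule.smul_mem _ _ ?_
    have h1 := AffineSubspace.vsub_mem_direction (hsub (hcl j)) hz
    simpa using h1
  have hint : (interior N).Nonempty := hconv.interior_nonempty_iff_affineSpan_eq_top.mpr hspan
  have heq := hconv.interior_closure_eq_interior_of_nonempty_interior hint
  have hopen : IsOpen {x : Fin n → ℝ | ∀ j, 0 < x j} := by
    have e1 : {x : Fin n → ℝ | ∀ j, 0 < x j} = ⋂ j, {x : Fin n → ℝ | 0 < x j} := by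
      ext x; simp
    rw [e1]
    exact isOpen_iInter_of_finite fun j => isOpen_lt continuous_const (continuous_apply j)
  have hsubi : {x : Fin n → ℝ | ∀ j, 0 < x j} ⊆ interior (closure N) :=
    interior_maximal (fun x hx => hall x fun j => (hx j).le) hopen
  exact interior_subset (heq ▸ hsubi hc)

theorem t_ORB : S_ORB := by
  intro r b ρ d ℓ s G e hD N h0 hadd hsmul hG hblk x hx
  classical
  have key : ∀ (i : Fin b) (c : Fin (d i) → ℝ), (∀ j, 0 < c j) →
      ∑ j, c j • e ⟨i, j⟩ ∈ N := by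
    intro i c hc
    obtain ⟨a, ha, hia⟩ := hblk i
    set φ : (Fin (d i) → ℝ) → (Fin ρ → ℝ) := fun t => ∑ j, t j • e ⟨i, j⟩ with hφ
    refine pos_mem (φ ⁻¹' N) ?_ ?_ ?_ ?_ c hc
    · rw [Set.mem_preimage, hφ]
      simpa using h0
    · intro u hu v hv
      rw [Set.mem_preimage] at hu hv ⊢
      have e1 : φ (u + v) = φ u + φ v := by
        simp only [hφ, Pi.add_apply, add_smul, Finset.sum_add_distrib]
      rw [e1]
      exact hadd _ hu _ hv
    · intro t ht u hu
      rw [Set.mem_preimage] at hu ⊢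
      have e1 : φ (t • u) = t • φ u := by
        simp only [hφ, Pi.smul_apply, smul_eq_mul, mul_smul, Finset.smul_sum]
      rw [e1]
      exact hsmul t ht _ hu
    · intro j
      obtain ⟨v, hv, hvk, -⟩ := hD.blk.dir ⟨i, j⟩
      have hpos : ∀ j' : Fin (d i), 0 < e.repr a ⟨i, j'⟩ := fun j' => (hia ⟨i, j'⟩).1 rfl
      set α : Fin (d i) → ℝ := fun j' => e.repr a ⟨i, j'⟩ with hα
      have hz : ∀ k : ℕ, (fun j' => (α j)⁻¹ * (Real.exp (-(k * ev (ℓ ⟨i, j⟩) v)) *
          (Real.exp (k * ev (ℓ ⟨i, j'⟩) v) * α j'))) ∈ φ ⁻¹' N := by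
        intro k
        rw [Set.mem_preimage]
        have e1 : φ (fun j' => (α j)⁻¹ * (Real.exp (-(k * ev (ℓ ⟨i, j⟩) v)) *
            (Real.exp (k * ev (ℓ ⟨i, j'⟩) v) * α j'))) =
            (α j)⁻¹ • (Real.exp (-(k * ev (ℓ ⟨i, j⟩) v)) • G (k • v) a) := by
          have e2 : G (k • v) a = ∑ j', (Real.exp (k * ev (ℓ ⟨i, j'⟩) v) * α j') • e ⟨i, j'⟩ := by
            conv_lhs => rw [eq_sum e i (G (k • v) a) fun p hp => by
              rw [repr_G hD, (hia p).2 hp, mul_zero]]
            refine Finset.sum_congr rfl fun j' _ => ?_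
            rw [repr_G hD, ev_nsmul]
          rw [e2, Finset.smul_sum, Finset.smul_sum]
          refine Finset.sum_congr rfl fun j' _ => ?_
          rw [smul_smul, smul_smul, mul_assoc]
        rw [e1]
        exact hsmul _ (inv_nonneg.mpr (hpos j).le) _ (hsmul _ (Real.exp_pos _).le _ (hG _ _ ha))
      refine mem_closure_of_tendsto (f := fun k : ℕ => fun j' =>
        (α j)⁻¹ * (Real.exp (-(k * ev (ℓ ⟨i, j⟩) v)) *
          (Real.exp (k * ev (ℓ ⟨i, j'⟩) v) * α j'))) (b := atTop) ?_ (Eventually.of_forall hz)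
      rw [tendsto_pi_nhds]
      intro j'
      by_cases hj : j' = j
      · subst hj
        rw [Pi.single_eq_same]
        refine Tendsto.congr (fun k => ?_) tendsto_const_nhds
        rw [← mul_assoc (Real.exp _), ← Real.exp_add, neg_add_cancel, Real.exp_zero, one_mul,
          inv_mul_cancel₀ (hpos j').ne']
      · rw [Pi.single_eq_of_ne hj]
        have hne : (⟨i, j'⟩ : Ix d) ≠ ⟨i, j⟩ := by
          intro h
          simp only [Sigma.mk.injEq, heq_eq_eq, true_and] at h
          exact hj h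
        have h3 : (fun k : ℕ => (α j)⁻¹ * (Real.exp (-(k * ev (ℓ ⟨i, j⟩) v)) *
            (Real.exp (k * ev (ℓ ⟨i, j'⟩) v) * α j'))) = fun k : ℕ =>
            Real.exp (ev (ℓ ⟨i, j'⟩) v - ev (ℓ ⟨i, j⟩) v) ^ k * ((α j)⁻¹ * α j') := by
          funext k
          rw [← Real.exp_nat_mul]
          have e4 : (k : ℝ) * (ev (ℓ ⟨i, j'⟩) v - ev (ℓ ⟨i, j⟩) v) =
            -(k * ev (ℓ ⟨i, j⟩) v) + k * ev (ℓ ⟨i, j'⟩) v := by ring
          rw [e4, Real.exp_add]
          ring
        rw [h3]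
        have h4 : Real.exp (ev (ℓ ⟨i, j'⟩) v - ev (ℓ ⟨i, j⟩) v) < 1 := by
          rw [Real.exp_lt_one_iff]
          have := hvk ⟨i, j'⟩ hne
          linarith
        have h5 := (tendsto_pow_atTop_nhds_zero_of_lt_one (Real.exp_pos _).le h4).mul_const
          ((α j)⁻¹ * α j')
        rwa [zero_mul] at h5
  have hx1 : x = ∑ i, ∑ j : Fin (d i), e.repr x ⟨i, j⟩ • e ⟨i, j⟩ := by
    conv_lhs => rw [← e.sum_repr x]
    rw [Fintype.sum_sigma]
  rw [hx1]
  refine Finset.sum_induction _ (· ∈ N) (fun a b ha hb => hadd a ha b hb) h0 fun i _ => ?_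
  rcases hx i with h | h
  · rw [Finset.sum_eq_zero fun j _ => by rw [h j, zero_smul]]
    exact h0
  · exact key i _ h

end Pool.Agent.P8H41.MB
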